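import Mathlib

namespace Pool.Agent.HX6.P73

open Subgroup

/-- The coset enumeration of the triangle group `(2,3,5)` over a cyclic subgroup of order `5`:
twelve points closed under both generators. -/
theorem enum {P : Type*} (fa fb : P → P) (ha : ∀ p, fa (fa p) = p) (hb : ∀ p, fb (fb (fb p)) = p)
    (hab : ∀ p, fa (fb (fa (fb (fa (fb (fa (fb (fa (fb p))))))))) = p)
    (p0 : P) (h0 : fa (fb p0) = p0) :
    ∃ s : Finset P, s.card ≤ 12 ∧ p0 ∈ s ∧ (∀ p ∈ s, fa p ∈ s) ∧ (∀ p ∈ s, fb p ∈ s) := by
  classical
  set p1 := fb p0 with e1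
  set p2 := fb p1 with e2
  set p3 := fa p2 with e3
  set p4 := fb p3 with e4
  set p5 := fb p4 with e5
  set p6 := fa p4 with e6
  set p7 := fa p5 with e7
  set p8 := fb p7 with e8
  set p9 := fa p8 with e9
  set p10 := fb p9 with e10
  set p11 := fb p10 with e11
  have a0 : fa p0 = p1 := by grind
  have a1 : fa p1 = p0 := by grind
  have a2 : fa p2 = p3 := e3.symm
  have a3 : fa p3 = p2 := by grind
  have a4 : fa p4 = p6 := e6.symm
  have a5 : fa p5 = p7 := e7.symm
  have a6 : fa p6 = p4 := by grind
  have a7 : fa p7 = p5 := by grind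
  have a8 : fa p8 = p9 := e9.symm
  have a9 : fa p9 = p8 := by grind
  have b2 : fb p2 = p0 := by grind
  have b5 : fb p5 = p3 := by grind
  have b11 : fb p11 = p9 := by grind
  have b6 : fb p6 = p7 := by
    have := hab p0
    have := hab p1
    have := hab p2
    have := hab p3
    have := hab p5
    have := hab p4
    grind
  have b8 : fb p8 = p6 := by grind
  have a10 : fa p10 = p11 := by
    have := hab p9
    have := hab p10
    have := hab p11
    have := hab p8
    have := hab p7
    have := hab p6
    grind
  have a11 : fa p11 = p10 := by grind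
  refine ⟨{p0, p1, p2, p3, p4, p5, p6, p7, p8, p9, p10, p11}, ?_, by simp, ?_, ?_⟩
  · refine (Finset.card_insert_le _ _).trans ?_
    exact Nat.succ_le_succ (by
      refine (Finset.card_insert_le _ _).trans (Nat.succ_le_succ ?_)
      refine (Finset.card_insert_le _ _).trans (Nat.succ_le_succ ?_)
      refine (Finset.card_insert_le _ _).trans (Nat.succ_le_succ ?_)
      refine (Finset.card_insert_le _ _).trans (Nat.succ_le_succ ?_)
      refine (Finset.card_insert_le _ _).trans (Nat.succ_le_succ ?_)
      refine (Finset.card_insert_le _ _).trans (Nat.succ_le_succ ?_)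
      refine (Finset.card_insert_le _ _).trans (Nat.succ_le_succ ?_)
      refine (Finset.card_insert_le _ _).trans (Nat.succ_le_succ ?_)
      refine (Finset.card_insert_le _ _).trans (Nat.succ_le_succ ?_)
      refine (Finset.card_insert_le _ _).trans (Nat.succ_le_succ ?_)
      simp)
  · intro p hp
    simp only [Finset.mem_insert, Finset.mem_singleton] at hp ⊢
    rcases hp with h | h | h | h | h | h | h | h | h | h | h | h <;> subst p <;> grind
  · intro p hp
    simp only [Finset.mem_insert, Finset.mem_singleton] at hp ⊢
    rcases hp with h | h | h | h | h | h | h | h | h | h | h | h <;> subst p <;> grind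

end Pool.Agent.HX6.P73
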