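import Pool.Agent.HX6.P73.A

namespace Pool.Agent.HX6.P73

open Subgroup Pointwise

theorem card_le {G : Type*} [Group G] [Finite G] (a b c : G) (ha : a ^ 2 = 1) (hb : b ^ 3 = 1)
    (hc : c ^ 5 = 1) (h : a * b * c = 1) (hcl : closure {a, b, c} = ⊤) : Nat.card G ≤ 60 := by
  classical
  let H : Subgroup G := zpowers c
  have hcab : c = (a * b)⁻¹ := by
    have := eq_inv_of_mul_eq_one_right h
    exact this
  have hab5 : (a * b) ^ 5 = 1 := by
    have : (a * b) = c⁻¹ := by rw [hcab, inv_inv]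
    rw [this, inv_pow, hc, inv_one]
  obtain ⟨s, hs, h0, hsa, hsb⟩ := enum (P := G ⧸ H) (fun p => a • p) (fun p => b • p)
    (fun p => by
      simp only [← mul_smul]
      have : a * a = 1 := by rw [← ha, pow_two]
      rw [this, one_smul])
    (fun p => by
      simp only [← mul_smul]
      have : b * (b * b) = 1 := by rw [← hb, pow_succ, pow_two, mul_assoc]
      rw [this, one_smul])
    (fun p => by
      simp only [← mul_smul]
      have : (a * (b * (a * (b * (a * (b * (a * (b * (a * b))))))))) = 1 := by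
        rw [← hab5]
        simp only [pow_succ, pow_zero, one_mul, mul_assoc]
      rw [this, one_smul])
    ((1 : G) : G ⧸ H)
    (by
      show a • b • ((1 : G) : G ⧸ H) = ((1 : G) : G ⧸ H)
      rw [← mul_smul]
      change ((a * b * 1 : G) : G ⧸ H) = _
      rw [QuotientGroup.eq]
      simp only [mul_one]
      rw [← hcab]
      exact mem_zpowers c)
  have hall : ∀ q : G ⧸ H, q ∈ s := by
    have hst : (⊤ : Subgroup G) ≤ MulAction.stabilizer G s := by
      rw [← hcl, closure_le]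
      have hA : a ∈ MulAction.stabilizer G s := MulAction.mem_stabilizer_finset'.2 hsa
      have hB : b ∈ MulAction.stabilizer G s := MulAction.mem_stabilizer_finset'.2 hsb
      have hC : ∀ d : G, d = (a * b)⁻¹ → d ∈ MulAction.stabilizer G s := fun d hd => by
        rw [hd]; exact inv_mem (mul_mem hA hB)
      rintro x (rfl | rfl | rfl)
      · exact hA
      · exact hB
      · exact hC _ hcab
    intro q
    induction q using QuotientGroup.induction_on with
    | H g =>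
      have := MulAction.mem_stabilizer_finset'.1 (hst (mem_top g)) h0
      have e : g • ((1 : G) : G ⧸ H) = (g : G ⧸ H) := by
        change ((g * 1 : G) : G ⧸ H) = _
        rw [mul_one]
      rwa [e] at this
  have hcard : Nat.card (G ⧸ H) ≤ 12 := by
    have h1 : (Set.univ : Set (G ⧸ H)) ⊆ (s : Set (G ⧸ H)) := fun q _ => hall q
    have h2 := Set.ncard_le_ncard h1 (Finset.finite_toSet s)
    rw [Set.ncard_univ, Set.ncard_coe_finset] at h2
    omega
  have hH : Nat.card H ≤ 5 := by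
    rw [Nat.card_zpowers]
    exact orderOf_le_of_pow_eq_one (by norm_num) hc
  rw [Subgroup.card_eq_card_quotient_mul_card_subgroup H]
  calc Nat.card (G ⧸ H) * Nat.card H ≤ 12 * 5 := Nat.mul_le_mul hcard hH
    _ = 60 := rfl

/-- The Crowell-Fox collapse. -/
theorem collapse {G : Type*} [Group G] (a b : G) (k : ℕ) (h1 : b⁻¹ * a ^ k * b = a ^ (k + 1))
    (h2 : a⁻¹ * b ^ k * a = b ^ (k + 1)) : a = 1 := by
  -- `b ^ (-j) a ^ (k ^ j) b ^ j = a ^ ((k + 1) ^ j)`
  have conjpow : ∀ (x y : G) (m : ℕ), y⁻¹ * x ^ m * y = (y⁻¹ * x * y) ^ m := by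
    intro x y m
    have := conj_pow (i := m) (a := y⁻¹) (b := x)
    simpa using this.symm
  have hj : ∀ j : ℕ, (b ^ j)⁻¹ * a ^ (k ^ j) * b ^ j = a ^ ((k + 1) ^ j) := by
    intro j
    induction j with
    | zero => simp
    | succ j ih =>
      have e1 : (b ^ (j + 1))⁻¹ * a ^ (k ^ (j + 1)) * b ^ (j + 1)
          = b⁻¹ * ((b ^ j)⁻¹ * a ^ (k ^ j * k) * b ^ j) * b := by
        rw [pow_succ b j, pow_succ k j]; group
      rw [e1, pow_mul, conjpow (a ^ k ^ j) (b ^ j) k, ih]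
      -- now `b⁻¹ (a ^ ((k+1)^j)) ^ k b`
      rw [← pow_mul, mul_comm, pow_mul, conjpow (a ^ k) b _, h1, ← pow_mul, pow_succ, mul_comm]
  set m := (k + 1) ^ k with hm
  have hk := hj k
  -- conjugate by `a`
  have hcomm : b⁻¹ * a ^ m * b = a ^ m := by
    have e1 : a⁻¹ * ((b ^ k)⁻¹ * a ^ (k ^ k) * b ^ k) * a
        = (a⁻¹ * b ^ k * a)⁻¹ * a ^ (k ^ k) * (a⁻¹ * b ^ k * a) := by
      have : a⁻¹ * a ^ (k ^ k) * a = a ^ (k ^ k) := by
        rw [conjpow]; simp
      calc a⁻¹ * ((b ^ k)⁻¹ * a ^ (k ^ k) * b ^ k) * a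
          = (a⁻¹ * b ^ k * a)⁻¹ * (a⁻¹ * a ^ (k ^ k) * a) * (a⁻¹ * b ^ k * a) := by group
        _ = _ := by rw [this]
    rw [hk] at e1
    have e2 : a⁻¹ * a ^ ((k + 1) ^ k) * a = a ^ ((k + 1) ^ k) := by
      rw [conjpow]; simp
    rw [e2, h2] at e1
    have e3 : (b ^ (k + 1))⁻¹ * a ^ (k ^ k) * b ^ (k + 1)
        = b⁻¹ * ((b ^ k)⁻¹ * a ^ (k ^ k) * b ^ k) * b := by
      rw [pow_succ b k]; group
    rw [e3, hk] at e1
    exact e1.symm
  have ham : a ^ m = 1 := by
    have e1 : b⁻¹ * (a ^ m) ^ k * b = (a ^ m) ^ k := by rw [conjpow, hcomm]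
    have e2 : b⁻¹ * (a ^ m) ^ k * b = (a ^ m) ^ (k + 1) := by
      rw [← pow_mul, mul_comm, pow_mul, conjpow, h1, ← pow_mul, mul_comm, pow_mul]
    rw [e2, pow_succ] at e1
    exact mul_eq_left.1 e1
  have hak : a ^ (k ^ k) = 1 := by
    have e : (b ^ k)⁻¹ * a ^ (k ^ k) * b ^ k = 1 := by rw [hk, ← hm, ham]
    have : a ^ (k ^ k) = b ^ k * ((b ^ k)⁻¹ * a ^ (k ^ k) * b ^ k) * (b ^ k)⁻¹ := by group
    rw [this, e]; group
  have hd1 := orderOf_dvd_of_pow_eq_one ham
  have hd2 := orderOf_dvd_of_pow_eq_one hak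
  have hco : Nat.Coprime ((k + 1) ^ k) (k ^ k) :=
    Nat.Coprime.pow _ _ (by simp)
  have : orderOf a ∣ 1 := by
    rw [← hco]
    exact Nat.dvd_gcd hd1 hd2
  exact orderOf_eq_one_iff.1 (Nat.dvd_one.1 this)

end Pool.Agent.HX6.P73
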